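import Mathlib

/-!
# Induction of integral intertwiners

Let `Γ` act transitively on `X` and `Y`, with an integral `Γ`-invariant matrix `M` on `X × Y`
which has a `Γ`-invariant inverse `N`. For any homomorphism `ρ : Γ →* W` the images in `W` of the
point stabilisers in `Γ` have isomorphic integral permutation modules on their cosets in `W`.
-/

set_option autoImplicit false

namespace Pool.Agent.Lib.MP_997916_al

open MonoidAlgebra

/-- Linear maps out of a permutation module agree if they agree on multiples of points. -/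
theorem lhomExt {A V : Type*} [AddCommMonoid V] [Module ℤ V]
    {f g : MonoidAlgebra ℤ A →ₗ[ℤ] V} (h : ∀ (a : A) (n : ℤ), f (single a n) = g (single a n)) :
    f = g :=
  MonoidAlgebra.lhom_ext' fun a => LinearMap.ext fun n => h a n

section Induce

variable {Γ W X Y : Type*} [Group Γ] [Group W] [Fintype X] [Fintype Y]
  [DecidableEq X] [DecidableEq Y]

/-- The stabiliser of the point `x` under the action given by `φ`. -/
def stab {X : Type*} (φ : Γ →* Equiv.Perm X) (x : X) : Subgroup Γ :=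
  (MulAction.stabilizer (Equiv.Perm X) x).comap φ

theorem mem_stab {X : Type*} (φ : Γ →* Equiv.Perm X) (x : X) (g : Γ) :
    g ∈ stab φ x ↔ φ g x = x := Iff.rfl

/-- The map from points to cosets in the big group. -/
noncomputable def iota {X : Type*} (ρ : Γ →* W) (φ : Γ →* Equiv.Perm X) (x₀ : X)
    (ht : ∀ x, ∃ g, φ g x₀ = x) (x : X) : W ⧸ (stab φ x₀).map ρ :=
  QuotientGroup.mk (ρ (Classical.choose (ht x)))

theorem iota_eq {X : Type*} (ρ : Γ →* W) (φ : Γ →* Equiv.Perm X) (x₀ : X)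
    (ht : ∀ x, ∃ g, φ g x₀ = x) (g : Γ) :
    iota ρ φ x₀ ht (φ g x₀) = QuotientGroup.mk (ρ g) := by
  rw [iota, QuotientGroup.eq]
  refine ⟨(Classical.choose (ht (φ g x₀)))⁻¹ * g, ?_, by simp⟩
  have h := Classical.choose_spec (ht (φ g x₀))
  change (φ ((Classical.choose (ht (φ g x₀)))⁻¹ * g)) x₀ = x₀
  rw [map_mul, Equiv.Perm.mul_apply, map_inv, Equiv.Perm.inv_eq_iff_eq]
  exact h.symm

theorem smul_iota {X : Type*} (ρ : Γ →* W) (φ : Γ →* Equiv.Perm X) (x₀ : X)
    (ht : ∀ x, ∃ g, φ g x₀ = x) (g : Γ) (x : X) :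
    ρ g • iota ρ φ x₀ ht x = iota ρ φ x₀ ht (φ g x) := by
  obtain ⟨h, rfl⟩ := ht x
  rw [iota_eq, ← Equiv.Perm.mul_apply, ← map_mul, iota_eq, map_mul]
  rfl

variable (ρ : Γ →* W) (φ : Γ →* Equiv.Perm X) (ψ : Γ →* Equiv.Perm Y) (x₀ : X) (y₀ : Y)
  (hφ : ∀ x, ∃ g, φ g x₀ = x) (hψ : ∀ y, ∃ g, ψ g y₀ = y)
  (M : Matrix X Y ℤ) (hM : ∀ g x y, M (φ g x) (ψ g y) = M x y)
  (N : Matrix Y X ℤ) (hN : ∀ g x y, N (ψ g y) (φ g x) = N y x)

/-- The image of a coset. -/
noncomputable def cosetImage (w : W) : MonoidAlgebra ℤ (W ⧸ (stab ψ y₀).map ρ) :=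
  ∑ y, single (w • iota ρ ψ y₀ hψ y) (M x₀ y)

include hM in
theorem cosetImage_mul (w : W) (g : Γ) :
    cosetImage ρ ψ x₀ y₀ hψ M (w * ρ g) =
      ∑ y, single (w • iota ρ ψ y₀ hψ y) (M (φ g x₀) y) := by
  rw [cosetImage, ← Equiv.sum_comp (ψ g) (fun y => single (w • iota ρ ψ y₀ hψ y) (M (φ g x₀) y))]
  refine Finset.sum_congr rfl fun y _ => ?_
  rw [hM, mul_smul, smul_iota]

/-- The image of a coset, as a function on cosets. -/
noncomputable def imageFun (q : W ⧸ (stab φ x₀).map ρ) :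
    MonoidAlgebra ℤ (W ⧸ (stab ψ y₀).map ρ) :=
  Quotient.liftOn' q (cosetImage ρ ψ x₀ y₀ hψ M) (by
    intro a b hab
    rw [QuotientGroup.leftRel_apply] at hab
    obtain ⟨g, hg, hgab⟩ := hab
    have hb : b = a * ρ g := by rw [hgab]; group
    have hg' : φ g x₀ = x₀ := hg
    rw [hb, cosetImage_mul ρ φ ψ x₀ y₀ hψ M hM, hg']
    rfl)

/-- The linear map between permutation modules. -/
noncomputable def imageMap : MonoidAlgebra ℤ (W ⧸ (stab φ x₀).map ρ) →ₗ[ℤ]
    MonoidAlgebra ℤ (W ⧸ (stab ψ y₀).map ρ) :=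
  (Finsupp.linearCombination ℤ (imageFun ρ φ ψ x₀ y₀ hψ M hM)) ∘ₗ
    (MonoidAlgebra.coeffLinearEquiv ℤ).toLinearMap

theorem imageMap_single (q : W ⧸ (stab φ x₀).map ρ) (n : ℤ) :
    imageMap ρ φ ψ x₀ y₀ hψ M hM (single q n) = n • imageFun ρ φ ψ x₀ y₀ hψ M hM q := by
  simp [imageMap]

theorem imageMap_comm (w : W) :
    imageMap ρ φ ψ x₀ y₀ hψ M hM ∘ₗ
      (Representation.ofMulAction ℤ W (W ⧸ (stab φ x₀).map ρ) w) =
    (Representation.ofMulAction ℤ W (W ⧸ (stab ψ y₀).map ρ) w) ∘ₗ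
      imageMap ρ φ ψ x₀ y₀ hψ M hM := by
  refine lhomExt fun q n => ?_
  obtain ⟨v, rfl⟩ := QuotientGroup.mk_surjective q
  rw [LinearMap.comp_apply, LinearMap.comp_apply, Representation.ofMulAction_single,
    imageMap_single, imageMap_single, map_smul]
  congr 1
  change cosetImage ρ ψ x₀ y₀ hψ M (w * v) =
    Representation.ofMulAction ℤ W (W ⧸ (stab ψ y₀).map ρ) w (cosetImage ρ ψ x₀ y₀ hψ M v)
  rw [cosetImage, cosetImage, map_sum]
  refine Finset.sum_congr rfl fun y _ => ?_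
  rw [Representation.ofMulAction_single, mul_smul]

theorem imageFun_iota (x : X) :
    imageFun ρ φ ψ x₀ y₀ hψ M hM (iota ρ φ x₀ hφ x) =
      ∑ y, single (iota ρ ψ y₀ hψ y) (M x y) := by
  obtain ⟨g, rfl⟩ := hφ x
  rw [iota_eq]
  have h := cosetImage_mul ρ φ ψ x₀ y₀ hψ M hM 1 g
  rw [one_mul] at h
  simp only [one_smul] at h
  exact h

theorem iota_base : iota ρ φ x₀ hφ x₀ = QuotientGroup.mk 1 := by
  have h := iota_eq ρ φ x₀ hφ 1
  rw [map_one, map_one] at h
  exact h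

include hφ in
theorem imageMap_imageMap (hMN : M * N = 1) (q : W ⧸ (stab φ x₀).map ρ) (n : ℤ) :
    imageMap ρ ψ φ y₀ x₀ hφ N (fun g y x => hN g x y) (imageMap ρ φ ψ x₀ y₀ hψ M hM (single q n)) =
      single q n := by
  obtain ⟨w, rfl⟩ := QuotientGroup.mk_surjective q
  have key : imageMap ρ ψ φ y₀ x₀ hφ N (fun g y x => hN g x y)
      (imageMap ρ φ ψ x₀ y₀ hψ M hM (single (QuotientGroup.mk 1) n)) =
      single (QuotientGroup.mk 1) n := by
    rw [imageMap_single, ← iota_base ρ φ x₀ hφ, imageFun_iota ρ φ ψ x₀ y₀ hφ hψ M hM x₀, map_smul,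
      map_sum]
    have h1 : ∀ y : Y, imageMap ρ ψ φ y₀ x₀ hφ N (fun g y x => hN g x y)
        (single (iota ρ ψ y₀ hψ y) (M x₀ y)) =
        ∑ x, single (iota ρ φ x₀ hφ x) (M x₀ y * N y x) := by
      intro y
      rw [imageMap_single, imageFun_iota ρ ψ φ y₀ x₀ hψ hφ N (fun g y x => hN g x y) y,
        Finset.smul_sum]
      refine Finset.sum_congr rfl fun x _ => ?_
      rw [MonoidAlgebra.smul_single, smul_eq_mul]
    rw [Finset.sum_congr rfl fun y _ => h1 y, Finset.sum_comm]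
    have h2 : ∀ x : X, ∑ y, (single (iota ρ φ x₀ hφ x) (M x₀ y * N y x) :
        MonoidAlgebra ℤ (W ⧸ (stab φ x₀).map ρ)) =
        single (iota ρ φ x₀ hφ x) ((M * N) x₀ x) := by
      intro x
      rw [Matrix.mul_apply]
      exact (map_sum (MonoidAlgebra.singleAddHom (iota ρ φ x₀ hφ x)) _ _).symm
    rw [Finset.sum_congr rfl fun x _ => h2 x, hMN, Finset.sum_eq_single x₀]
    · rw [Matrix.one_apply_eq, MonoidAlgebra.smul_single, smul_eq_mul, mul_one]
    · intro x _ hx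
      rw [Matrix.one_apply_ne hx.symm, MonoidAlgebra.single_zero]
    · intro h; exact absurd (Finset.mem_univ _) h
  have hw : (single (QuotientGroup.mk w) n : MonoidAlgebra ℤ (W ⧸ (stab φ x₀).map ρ)) =
      Representation.ofMulAction ℤ W (W ⧸ (stab φ x₀).map ρ) w (single (QuotientGroup.mk 1) n) := by
    rw [Representation.ofMulAction_single]
    congr 1
    change _ = QuotientGroup.mk (w * 1)
    rw [mul_one]
  have c1 := LinearMap.congr_fun (imageMap_comm ρ φ ψ x₀ y₀ hψ M hM w) (single (QuotientGroup.mk 1) n)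
  have c2 := LinearMap.congr_fun (imageMap_comm ρ ψ φ y₀ x₀ hφ N (fun g y x => hN g x y) w)
    (imageMap ρ φ ψ x₀ y₀ hψ M hM (single (QuotientGroup.mk 1) n))
  rw [LinearMap.comp_apply, LinearMap.comp_apply] at c1 c2
  rw [hw, c1, c2, key]

/-- The equivalence of the two permutation representations of the big group. -/
noncomputable def cosetEquiv (hMN : M * N = 1) (hNM : N * M = 1) :
    (Representation.ofMulAction ℤ W (W ⧸ (stab φ x₀).map ρ)).Equiv
      (Representation.ofMulAction ℤ W (W ⧸ (stab ψ y₀).map ρ)) :=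
  Representation.Equiv.mk
    (LinearEquiv.ofLinearMap (imageMap ρ φ ψ x₀ y₀ hψ M hM)
      (imageMap ρ ψ φ y₀ x₀ hφ N (fun g y x => hN g x y))
      (lhomExt fun q n =>
        imageMap_imageMap ρ ψ φ y₀ x₀ hψ hφ N (fun g y x => hN g x y) M (fun g y x => hM g x y)
          hNM q n)
      (lhomExt fun q n =>
        imageMap_imageMap ρ φ ψ x₀ y₀ hφ hψ M hM N hN hMN q n))
    (imageMap_comm ρ φ ψ x₀ y₀ hψ M hM)

end Induce

end Pool.Agent.Lib.MP_997916_al
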