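import Mathlib

/-!
# Scott's pair: certified data

Two transitive permutation representations of degree 203 of the group generated by two
permutations (it is `PSL(2,29)`, acting on the cosets of representatives of the two classes of
subgroups isomorphic to `A_5`), an invariant colouring of the product of the two sets, and the two
integral matrices, inverse to each other, which intertwine the two permutation representations.

Everything is packed in natural numbers and checked by evaluation in the kernel.
-/

set_option autoImplicit false

namespace Pool.Agent.Lib.MP_997916_al

/-- The first generator, of order 29, on either set of 203 points. -/
def tt (i : ℕ) : ℕ := 29 * (i / 29) + (i % 29 + 1) % 29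

/-- The inverse of `tt`. -/
def tti (i : ℕ) : ℕ := 29 * (i / 29) + (i % 29 + 28) % 29

/-- Packed table of the second generator (an involution) on the first set. -/
def tabA : ℕ := 76861458027239629830795781149367188931632517920665669420227443443225564296984136585374997945540383030845835831831205590668240468210741346916319528402593050923604523495176490010486526721015570040870980315941642808891014432740689738948234799263517597641964545620140625995146477831283730807701385155827842941685286828471918201946335901883580390064006253820565932567294184155782700814118778487709883859805243471607655435816939623155433337479489954228111717705775558948140210529176470841204158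

/-- Packed table of the second generator (an involution) on the second set. -/
def tabB : ℕ := 373916351792084818938924822456031058099778900804131645243171675292450879933578047487071112857864376910240237624792723999858857360592003410281063135281569083729847267938920558108122221786890974400792604973811523733205466904537061129500408416494531625780845858089468900280071753225049058539503263654385242522165718551863082315211890499785960650528437237862229866884670393046674887705154531389719244229192615896989204669113555850128677379072501776100336219277283736333936180168999053230895383

/-- The second generator on the first set. -/
def sA (i : ℕ) : ℕ := (tabA >>> (8 * i)) % 256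

/-- The second generator on the second set. -/
def sB (i : ℕ) : ℕ := (tabB >>> (8 * i)) % 256

/-- Packed table of the colouring. -/
def tabL : ℕ := 2247825962687697038968351267875926608964138996769297832605457028969274042622096353692587690512660650654207434554453970425302201999189879691956873407532083138883154762528239685271109929854164488042505744059396138749685817806857209787482852747836710148099394118582160211538306305640830767890091149214725927019274256193565488359546125949386394122459313528111473173243889646909916539214663772791639582842758411980731695086925737978471394659802084728298906133550331204664489118014181010321949018355319337292980558758438635248992841128801443546860795805813568374845220336684544336307357030993247121247076327884107609463790560301179679830760755244122348375296214787359474228464871518933352768659779293597134346307818906963433875700897299056746817763283609765509939741513138073272248283799295237618996721109268228534290430187295581331640913950454913649876168329050606305245403365371416237099133101222745595006354425682277524856912835348263568664970415190725339846877522749366767676614358663891068876481465986125020656135679253695143672163164476248667926370377727390293307609379286711502447025870392073745063087836031968182613920965078193770789973321758202791254884312113325633257119125814776975611793881400357040422591153114812219880161573629013790735599075002087809679490922438475548099903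

/-- The invariant colouring of pairs; the colours are `0, ..., 7`. -/
def lab (x y : ℕ) : ℕ :=
  (tabL >>> (3 * (29 * (7 * (x / 29) + y / 29) + (y % 29 + 29 - x % 29) % 29))) % 8

/-- The matrix entry attached to a colour. -/
def cM (l : ℕ) : ℤ := bif Nat.beq l 1 then -1 else bif Nat.beq l 2 then 1 else 0

/-- The entry of the inverse matrix attached to a colour. -/
def cN (l : ℕ) : ℤ :=
  bif Nat.beq l 0 then 0 else bif Nat.ble l 3 then 1 else bif Nat.beq l 4 then -1 else 0

/-- Conjunction of `p 0, ..., p (n - 1)`. -/
def allTo : ℕ → (ℕ → Bool) → Bool
  | 0, _ => true
  | n + 1, p => p n && allTo n p

theorem allTo_spec {p : ℕ → Bool} : ∀ {n : ℕ}, allTo n p = true → ∀ i < n, p i = true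
  | 0, _, i, hi => absurd hi (Nat.not_lt_zero i)
  | n + 1, h, i, hi => by
    rw [allTo, Bool.and_eq_true] at h
    rcases Nat.lt_succ_iff_lt_or_eq.mp hi with h1 | h1
    · exact allTo_spec h.2 i h1
    · rw [h1]; exact h.1

/-- The sum `f 0 + ... + f (n - 1)`. -/
def sumTo : ℕ → (ℕ → ℤ) → ℤ
  | 0, _ => 0
  | n + 1, f => sumTo n f + f n

theorem sumTo_eq (f : ℕ → ℤ) : ∀ n : ℕ, sumTo n f = ∑ i ∈ Finset.range n, f i
  | 0 => by simp [sumTo]
  | n + 1 => by rw [sumTo, sumTo_eq f n, Finset.sum_range_succ]

theorem check_t : allTo 203 (fun i => Nat.ble (tt i + 1) 203 && (Nat.ble (tti i + 1) 203 &&
    (Nat.beq (tti (tt i)) i && Nat.beq (tt (tti i)) i))) = true := by decide +kernel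

theorem check_sA : allTo 203 (fun i => Nat.ble (sA i + 1) 203 && Nat.beq (sA (sA i)) i) = true := by
  decide +kernel

theorem check_sB : allTo 203 (fun i => Nat.ble (sB i + 1) 203 && Nat.beq (sB (sB i)) i) = true := by
  decide +kernel

theorem check_lab_t : allTo 203 (fun x => allTo 203 (fun y =>
    Nat.beq (lab (tt x) (tt y)) (lab x y))) = true := by decide +kernel

theorem check_lab_s : allTo 203 (fun x => allTo 203 (fun y =>
    Nat.beq (lab (sA x) (sB y)) (lab x y))) = true := by decide +kernel

/-- Integer equality test. -/
def ieq (a b : ℤ) : Bool := decide (a = b)

theorem check_prod : allTo 203 (fun x => ieq (sumTo 203 (fun y => cM (lab 0 y) * cN (lab x y)))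
    (bif Nat.beq x 0 then 1 else 0)) = true := by decide +kernel

end Pool.Agent.Lib.MP_997916_al
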