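import Pool.Agent.Lib.MP_997916_al.Scott

set_option autoImplicit false

namespace Pool.Agent.Lib.MP_997916_al

open Equiv

theorem tt_lt (i : ℕ) (hi : i < 203) : tt i < 203 := by
  have h := allTo_spec check_t i hi
  simp only [Bool.and_eq_true, Nat.beq_eq, Nat.ble_eq] at h
  exact h.1

theorem tti_lt (i : ℕ) (hi : i < 203) : tti i < 203 := by
  have h := allTo_spec check_t i hi
  simp only [Bool.and_eq_true, Nat.beq_eq, Nat.ble_eq] at h
  exact h.2.1

theorem tti_tt (i : ℕ) (hi : i < 203) : tti (tt i) = i := by
  have h := allTo_spec check_t i hi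
  simp only [Bool.and_eq_true, Nat.beq_eq, Nat.ble_eq] at h
  exact h.2.2.1

theorem tt_tti (i : ℕ) (hi : i < 203) : tt (tti i) = i := by
  have h := allTo_spec check_t i hi
  simp only [Bool.and_eq_true, Nat.beq_eq, Nat.ble_eq] at h
  exact h.2.2.2

theorem sA_lt (i : ℕ) (hi : i < 203) : sA i < 203 := by
  have h := allTo_spec check_sA i hi
  simp only [Bool.and_eq_true, Nat.beq_eq, Nat.ble_eq] at h
  exact h.1

theorem sA_sA (i : ℕ) (hi : i < 203) : sA (sA i) = i := by
  have h := allTo_spec check_sA i hi
  simp only [Bool.and_eq_true, Nat.beq_eq, Nat.ble_eq] at h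
  exact h.2

theorem sB_lt (i : ℕ) (hi : i < 203) : sB i < 203 := by
  have h := allTo_spec check_sB i hi
  simp only [Bool.and_eq_true, Nat.beq_eq, Nat.ble_eq] at h
  exact h.1

theorem sB_sB (i : ℕ) (hi : i < 203) : sB (sB i) = i := by
  have h := allTo_spec check_sB i hi
  simp only [Bool.and_eq_true, Nat.beq_eq, Nat.ble_eq] at h
  exact h.2

theorem lab_t (x y : ℕ) (hx : x < 203) (hy : y < 203) : lab (tt x) (tt y) = lab x y := by
  have h := allTo_spec (allTo_spec check_lab_t x hx) y hy
  exact Nat.eq_of_beq_eq_true h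

theorem lab_s (x y : ℕ) (hx : x < 203) (hy : y < 203) : lab (sA x) (sB y) = lab x y := by
  have h := allTo_spec (allTo_spec check_lab_s x hx) y hy
  exact Nat.eq_of_beq_eq_true h

theorem prod_row (x : ℕ) (hx : x < 203) :
    ∑ y ∈ Finset.range 203, cM (lab 0 y) * cN (lab x y) = if x = 0 then 1 else 0 := by
  have h := allTo_spec check_prod x hx
  have h2 : sumTo 203 (fun y => cM (lab 0 y) * cN (lab x y)) = bif Nat.beq x 0 then 1 else 0 :=
    of_decide_eq_true h
  rw [sumTo_eq] at h2
  rw [h2]
  by_cases hx0 : x = 0
  · subst hx0; rfl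
  · have : Nat.beq x 0 = false := by
      cases x with
      | zero => exact absurd rfl hx0
      | succ n => rfl
    rw [this, if_neg hx0]; rfl

/-- The first generator as a permutation. -/
def pT : Perm (Fin 203) where
  toFun i := ⟨tt i, tt_lt i i.2⟩
  invFun i := ⟨tti i, tti_lt i i.2⟩
  left_inv i := Fin.ext (tti_tt i i.2)
  right_inv i := Fin.ext (tt_tti i i.2)

/-- The second generator as a permutation of the first set. -/
def pA : Perm (Fin 203) where
  toFun i := ⟨sA i, sA_lt i i.2⟩
  invFun i := ⟨sA i, sA_lt i i.2⟩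
  left_inv i := Fin.ext (sA_sA i i.2)
  right_inv i := Fin.ext (sA_sA i i.2)

/-- The second generator as a permutation of the second set. -/
def pB : Perm (Fin 203) where
  toFun i := ⟨sB i, sB_lt i i.2⟩
  invFun i := ⟨sB i, sB_lt i i.2⟩
  left_inv i := Fin.ext (sB_sB i i.2)
  right_inv i := Fin.ext (sB_sB i i.2)

/-- The group generated by the two pairs of permutations (isomorphic to `PSL(2,29)`). -/
def G0 : Subgroup (Perm (Fin 203) × Perm (Fin 203)) :=
  Subgroup.closure {(pT, pT), (pA, pB)}

/-- The colouring on `Fin 203 × Fin 203`. -/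
def col (x y : Fin 203) : ℕ := lab x y

theorem col_inv (g : Perm (Fin 203) × Perm (Fin 203)) (hg : g ∈ G0) :
    ∀ x y : Fin 203, col (g.1 x) (g.2 y) = col x y := by
  induction hg using Subgroup.closure_induction with
  | mem g hg =>
    rcases hg with h | h
    · subst h
      intro x y
      exact lab_t x y x.2 y.2
    · rw [Set.mem_singleton_iff] at h
      subst h
      intro x y
      exact lab_s x y x.2 y.2
  | one => intro x y; rfl
  | mul g h _ _ hg hh =>
    intro x y
    have := hg (h.1 x) (h.2 y)
    rw [hh x y] at this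
    exact this
  | inv g _ hg =>
    intro x y
    have := hg (g⁻¹.1 x) (g⁻¹.2 y)
    rw [← this]
    simp

/-- The first homomorphism to permutations. -/
def φ₁ : G0 →* Perm (Fin 203) := (MonoidHom.fst _ _).comp G0.subtype

/-- The second homomorphism to permutations. -/
def φ₂ : G0 →* Perm (Fin 203) := (MonoidHom.snd _ _).comp G0.subtype

theorem col_inv' (g : G0) (x y : Fin 203) : col (φ₁ g x) (φ₂ g y) = col x y :=
  col_inv g.1 g.2 x y

/-- Words in the generators, evaluated on numbers (`true` is the first generator). -/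
def run (s : ℕ → ℕ) : List Bool → ℕ → ℕ
  | [], x => x
  | b :: w, x => bif b then tt (run s w x) else s (run s w x)

/-- Words in the generators, evaluated in the group. -/
def word : List Bool → G0
  | [] => 1
  | b :: w => (bif b then ⟨(pT, pT), Subgroup.subset_closure (by simp)⟩
      else ⟨(pA, pB), Subgroup.subset_closure (by simp)⟩) * word w

theorem word_φ₁ (w : List Bool) (x : Fin 203) : ((φ₁ (word w) x : Fin 203) : ℕ) = run sA w x := by
  induction w with
  | nil => rfl
  | cons b w ih =>
    cases b
    · change sA (φ₁ (word w) x : Fin 203) = _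
      rw [ih]; rfl
    · change tt (φ₁ (word w) x : Fin 203) = _
      rw [ih]; rfl

theorem word_φ₂ (w : List Bool) (x : Fin 203) : ((φ₂ (word w) x : Fin 203) : ℕ) = run sB w x := by
  induction w with
  | nil => rfl
  | cons b w ih =>
    cases b
    · change sB (φ₂ (word w) x : Fin 203) = _
      rw [ih]; rfl
    · change tt (φ₂ (word w) x : Fin 203) = _
      rw [ih]; rfl

/-- Words carrying the base point to each block of the first set, with the offset reached. -/
def baseA : ℕ → List Bool × ℕ
  | 0 => ([], 0)
  | 1 => ([false, true], 0)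
  | 2 => ([false, true, false], 16)
  | 3 => ([false, true, true, false, true], 1)
  | 4 => ([false, true, true], 16)
  | 5 => ([false, true, true, false], 11)
  | _ => ([false], 16)

/-- Words carrying the base point to each block of the second set, with the offset reached. -/
def baseB : ℕ → List Bool × ℕ
  | 0 => ([], 0)
  | 1 => ([false, true, true, true], 18)
  | 2 => ([false, true, true, true, true, false], 1)
  | 3 => ([false, true], 26)
  | 4 => ([false, true, true], 16)
  | 5 => ([false, true, false], 3)
  | _ => ([false, true, true, false], 21)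

/-- The word which carries the base point to a given point. -/
def toWord (b : ℕ → List Bool × ℕ) (n : ℕ) : List Bool :=
  List.replicate ((n % 29 + 29 - (b (n / 29)).2) % 29) true ++ (b (n / 29)).1

theorem check_transA : allTo 203 (fun n => Nat.beq (run sA (toWord baseA n) 0) n) = true := by
  decide +kernel

theorem check_transB : allTo 203 (fun n => Nat.beq (run sB (toWord baseB n) 0) n) = true := by
  decide +kernel

theorem trans₁ (x : Fin 203) : ∃ g : G0, φ₁ g 0 = x := by
  refine ⟨word (toWord baseA x), Fin.ext ?_⟩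
  rw [word_φ₁]
  exact Nat.eq_of_beq_eq_true (allTo_spec check_transA x x.2)

theorem trans₂ (x : Fin 203) : ∃ g : G0, φ₂ g 0 = x := by
  refine ⟨word (toWord baseB x), Fin.ext ?_⟩
  rw [word_φ₂]
  exact Nat.eq_of_beq_eq_true (allTo_spec check_transB x x.2)

/-- A first word fixing the base point of the second set. -/
def wU : List Bool := List.replicate 7 true ++ [false, true, false, true]

/-- A second word fixing the base point of the second set. -/
def wV : List Bool := List.replicate 3 true ++ false :: (List.replicate 8 true ++ [false, true])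

theorem check_nofix : allTo 203 (fun n =>
    !(Nat.beq (run sA wU n) n && Nat.beq (run sA wV n) n)) = true := by decide +kernel

theorem check_U : Nat.beq (run sB wU 0) 0 = true := by decide +kernel

theorem check_V : Nat.beq (run sB wV 0) 0 = true := by decide +kernel

theorem nofix (x : Fin 203) : ∃ g : G0, φ₂ g 0 = 0 ∧ φ₁ g x ≠ x := by
  have h := allTo_spec check_nofix x x.2
  by_cases hU : φ₁ (word wU) x = x
  · refine ⟨word wV, Fin.ext ?_, fun hV => ?_⟩
    · rw [word_φ₂]; exact Nat.eq_of_beq_eq_true check_V
    · have h1 : run sA wU x = x := by rw [← word_φ₁, hU]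
      have h2 : run sA wV x = x := by rw [← word_φ₁, hV]
      rw [h1, h2] at h
      simp at h
  · refine ⟨word wU, Fin.ext ?_, hU⟩
    rw [word_φ₂]; exact Nat.eq_of_beq_eq_true check_U

/-- The integral matrix. -/
def M : Matrix (Fin 203) (Fin 203) ℤ := fun x y => cM (col x y)

/-- The inverse of the integral matrix. -/
def N : Matrix (Fin 203) (Fin 203) ℤ := fun y x => cN (col x y)

theorem M_inv (g : G0) (x y : Fin 203) : M (φ₁ g x) (φ₂ g y) = M x y := by
  simp only [M, col_inv']

theorem N_inv (g : G0) (x y : Fin 203) : N (φ₂ g y) (φ₁ g x) = N y x := by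
  simp only [N, col_inv']

theorem MN_zero (x : Fin 203) : ∑ y : Fin 203, M 0 y * N y x = if x = 0 then 1 else 0 := by
  have h := prod_row x x.2
  rw [Finset.sum_range] at h
  rw [show (∑ y : Fin 203, M 0 y * N y x) = ∑ i : Fin 203, cM (lab 0 ↑i) * cN (lab ↑x ↑i) from rfl,
    h]
  by_cases hx : x = 0
  · subst hx; rfl
  · rw [if_neg hx, if_neg]
    intro h'; exact hx (Fin.ext h')

theorem MN : M * N = 1 := by
  ext u v
  obtain ⟨g, hg⟩ := trans₁ u
  rw [Matrix.mul_apply, ← Equiv.sum_comp (φ₂ g)]
  subst hg
  have h1 : ∀ y : Fin 203, M (φ₁ g 0) (φ₂ g y) * N (φ₂ g y) v = M 0 y * N y ((φ₁ g).symm v) := by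
    intro y
    rw [M_inv]
    conv_lhs => rw [← (φ₁ g).apply_symm_apply v, N_inv]
  rw [Finset.sum_congr rfl (fun y _ => h1 y), MN_zero, Matrix.one_apply]
  by_cases h : φ₁ g 0 = v
  · subst h; simp
  · rw [if_neg h, if_neg]
    intro h'
    apply h
    rw [← h', Equiv.apply_symm_apply]

theorem NM : N * M = 1 := mul_eq_one_comm.mp MN

end Pool.Agent.Lib.MP_997916_al
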