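import Mathlib
import Pool.Agent.Lib.MP_997916_al.Induce

/-!
# The wreath product step and the Cayley embedding

A permutational wreath product makes the two stabilisers non-isomorphic, and the regular
representation makes them core-free.
-/

set_option autoImplicit false

namespace Pool.Agent.Lib.MP_997916_al

section Wreath

variable {G X Y S : Type*} [Group G] [Group S]

/-- The action of `G` on functions from a `G`-set. -/
def shift (φ : G →* Equiv.Perm X) : G →* MulAut (X → S) where
  toFun g :=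
    { toFun := fun f x => f ((φ g)⁻¹ x)
      invFun := fun f x => f (φ g x)
      left_inv := fun f => by funext x; simp
      right_inv := fun f => by funext x; simp
      map_mul' := fun _ _ => rfl }
  map_one' := by ext f x; simp
  map_mul' g h := by
    ext f x
    simp only [map_mul, mul_inv_rev, MulAut.mul_apply]
    rfl

theorem shift_apply (φ : G →* Equiv.Perm X) (g : G) (f : X → S) (x : X) :
    shift φ g f x = f ((φ g)⁻¹ x) := rfl

theorem shift_inv_apply (φ : G →* Equiv.Perm X) (g : G) (f : X → S) (x : X) :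
    (shift φ g)⁻¹ f x = f (φ g x) := rfl

theorem symm_one_apply (x : X) : (Equiv.symm (1 : Equiv.Perm X)) x = x := rfl

/-- The property used to distinguish the two stabilisers: some nontrivial element has all its
conjugates among itself and its inverse. -/
def HasP (H : Type*) [Group H] : Prop :=
  ∃ t : H, t ≠ 1 ∧ ∀ h : H, h * t * h⁻¹ = t ∨ h * t * h⁻¹ = t⁻¹

theorem HasP.of_mulEquiv {H K : Type*} [Group H] [Group K] (e : H ≃* K) (hH : HasP H) :
    HasP K := by
  obtain ⟨t, ht, h⟩ := hH
  refine ⟨e t, fun h1 => ht ?_, fun k => ?_⟩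
  · rw [← e.map_one] at h1
    exact e.injective h1
  · obtain ⟨l, rfl⟩ := e.surjective k
    rw [← map_inv, ← map_mul, ← map_mul, ← map_inv]
    rcases h l with h | h
    · left; rw [h]
    · right; rw [h]

/-- The wreath product acts on a `G`-set through its quotient `G`. -/
def lift (φ : G →* Equiv.Perm X) (ψ : G →* Equiv.Perm Y) :
    ((X → S) ⋊[shift φ] G) →* Equiv.Perm Y := ψ.comp SemidirectProduct.rightHom

theorem hasP_first [DecidableEq X] (φ : G →* Equiv.Perm X) (x₁ : X) (c : S) (hc : c ≠ 1)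
    (hcc : ∀ s : S, s * c * s⁻¹ = c ∨ s * c * s⁻¹ = c⁻¹) :
    HasP (stab (lift (S := S) φ φ) x₁) := by
  refine ⟨⟨SemidirectProduct.inl (Pi.mulSingle x₁ c), ?_⟩, ?_, ?_⟩
  · change φ ((SemidirectProduct.inl (Pi.mulSingle x₁ c) : (X → S) ⋊[shift φ] G).right) x₁ = x₁
    simp
  · intro h
    have h2 : (SemidirectProduct.inl (Pi.mulSingle x₁ c) : (X → S) ⋊[shift φ] G) = 1 :=
      congrArg Subtype.val h
    have h3 := congrFun (congrArg SemidirectProduct.left h2) x₁
    simp at h3
    exact hc h3
  · rintro ⟨⟨f, g⟩, hg⟩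
    have hg' : φ g x₁ = x₁ := hg
    have hgi : (φ g)⁻¹ x₁ = x₁ := by rw [Equiv.Perm.inv_eq_iff_eq]; exact hg'.symm
    have key : (⟨f, g⟩ : (X → S) ⋊[shift φ] G) * SemidirectProduct.inl (Pi.mulSingle x₁ c) *
        (⟨f, g⟩ : (X → S) ⋊[shift φ] G)⁻¹ =
        SemidirectProduct.inl (Pi.mulSingle x₁ (f x₁ * c * (f x₁)⁻¹)) := by
      apply SemidirectProduct.ext
      · funext x
        simp only [SemidirectProduct.mul_left, SemidirectProduct.left_inl,
          SemidirectProduct.mul_right, SemidirectProduct.right_inl, mul_one,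
          SemidirectProduct.inv_left, Pi.mul_apply, shift_apply, map_inv, Pi.inv_apply]
        rw [shift_inv_apply, show φ g ((φ g)⁻¹ x) = x by simp]
        by_cases hx : x = x₁
        · subst hx
          rw [hgi]
          simp
        · have hx' : (φ g)⁻¹ x ≠ x₁ := by
            intro h; apply hx
            rw [Equiv.Perm.inv_eq_iff_eq] at h
            rw [h]; exact hg'
          rw [Pi.mulSingle_eq_of_ne hx', Pi.mulSingle_eq_of_ne hx]
          simp
      · simp
    rcases hcc (f x₁) with h | h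
    · left
      apply Subtype.ext
      change (⟨f, g⟩ : (X → S) ⋊[shift φ] G) * SemidirectProduct.inl (Pi.mulSingle x₁ c) *
        (⟨f, g⟩ : (X → S) ⋊[shift φ] G)⁻¹ = _
      rw [key, h]
    · right
      apply Subtype.ext
      change (⟨f, g⟩ : (X → S) ⋊[shift φ] G) * SemidirectProduct.inl (Pi.mulSingle x₁ c) *
        (⟨f, g⟩ : (X → S) ⋊[shift φ] G)⁻¹ = (SemidirectProduct.inl (Pi.mulSingle x₁ c))⁻¹
      rw [key, h, ← map_inv, Pi.mulSingle_inv]

theorem conj_single_left [DecidableEq X] (φ : G →* Equiv.Perm X) (x y : X) (s : S) (f : X → S)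
    (g : G) :
    ((SemidirectProduct.inl (Pi.mulSingle x s) : (X → S) ⋊[shift φ] G) *
      (⟨f, g⟩ : (X → S) ⋊[shift φ] G) *
      (SemidirectProduct.inl (Pi.mulSingle x s))⁻¹).left y =
    (Pi.mulSingle x s : X → S) y * f y * ((Pi.mulSingle x s : X → S) ((φ g)⁻¹ y))⁻¹ := by
  rw [← map_inv]
  simp only [SemidirectProduct.mul_left, SemidirectProduct.left_inl, SemidirectProduct.right_inl,
    SemidirectProduct.mul_right, map_one, MulAut.one_apply, one_mul, Pi.mul_apply, shift_apply,
    Pi.inv_apply]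

theorem not_hasP_second [DecidableEq X] (φ : G →* Equiv.Perm X) (ψ : G →* Equiv.Perm Y) (y₀ : Y)
    (hφ : Function.Injective φ) (s₁ s₂ : S) (h₁ : s₁ ≠ 1) (h₂ : s₂ ≠ 1) (h₁₂ : s₁ ≠ s₂)
    (hS : ∀ a : S, a ≠ 1 → ∃ s : S, s * a * s⁻¹ ≠ a)
    (hfix : ∀ x : X, ∃ g : G, ψ g y₀ = y₀ ∧ φ g x ≠ x) :
    ¬ HasP (stab (lift (S := S) φ ψ) y₀) := by
  rintro ⟨⟨⟨f, g⟩, hg⟩, ht, hall⟩
  -- conjugation by elements of the base group
  have hinl : ∀ n : X → S, (SemidirectProduct.inl n : (X → S) ⋊[shift φ] G) ∈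
      stab (lift (S := S) φ ψ) y₀ := by
    intro n
    change ψ ((SemidirectProduct.inl n : (X → S) ⋊[shift φ] G).right) y₀ = y₀
    simp
  have hconj : ∀ k : (X → S) ⋊[shift φ] G, k ∈ stab (lift (S := S) φ ψ) y₀ →
      k * ⟨f, g⟩ * k⁻¹ = ⟨f, g⟩ ∨ k * ⟨f, g⟩ * k⁻¹ = (⟨f, g⟩ : (X → S) ⋊[shift φ] G)⁻¹ := by
    intro k hk
    rcases hall ⟨k, hk⟩ with h | h
    · left; exact congrArg Subtype.val h
    · right; exact congrArg Subtype.val h
  by_cases hg1 : g = 1
  · subst hg1
    -- the support of `f` is a single point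
    have hA : ∀ x, f x ≠ 1 → f x ≠ (f x)⁻¹ ∧ ∀ y, y ≠ x → f y = (f y)⁻¹ := by
      intro x hx
      obtain ⟨s, hs⟩ := hS (f x) hx
      have hne : (SemidirectProduct.inl (Pi.mulSingle x s) : (X → S) ⋊[shift φ] G) *
          (⟨f, 1⟩ : (X → S) ⋊[shift φ] G) *
          (SemidirectProduct.inl (Pi.mulSingle x s))⁻¹ ≠ ⟨f, 1⟩ := by
        intro h
        have h' := congrFun (congrArg SemidirectProduct.left h) x
        rw [conj_single_left, map_one, inv_one, Equiv.Perm.one_apply] at h'
        simp at h'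
        exact hs h'
      have heq := (hconj _ (hinl (Pi.mulSingle x s))).resolve_left hne
      have hval : ∀ y, (Pi.mulSingle x s : X → S) y * f y * ((Pi.mulSingle x s : X → S) y)⁻¹ =
          (f y)⁻¹ := by
        intro y
        have h' := congrFun (congrArg SemidirectProduct.left heq) y
        rw [conj_single_left, map_one, inv_one, Equiv.Perm.one_apply] at h'
        simpa using h'
      refine ⟨fun h => hs ?_, fun y hy => ?_⟩
      · have h' := hval x
        rw [Pi.mulSingle_eq_same] at h'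
        rw [h', ← h]
      · have h' := hval y
        rw [Pi.mulSingle_eq_of_ne hy] at h'
        simpa using h'
    have hf : ∃ x, f x ≠ 1 := by
      by_contra hcon
      push Not at hcon
      apply ht
      apply Subtype.ext
      have : f = 1 := funext hcon
      rw [this]
      rfl
    obtain ⟨x, hx⟩ := hf
    obtain ⟨k, hk, hkx⟩ := hfix x
    have hy : f (φ k x) = 1 := by
      by_contra hne
      exact (hA _ hne).1 ((hA x hx).2 _ hkx)
    have hkmem : (SemidirectProduct.inr k : (X → S) ⋊[shift φ] G) ∈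
        stab (lift (S := S) φ ψ) y₀ := by
      change ψ ((SemidirectProduct.inr k : (X → S) ⋊[shift φ] G).right) y₀ = y₀
      simpa using hk
    have hcl : ((SemidirectProduct.inr k : (X → S) ⋊[shift φ] G) *
        (⟨f, 1⟩ : (X → S) ⋊[shift φ] G) *
        (SemidirectProduct.inr k)⁻¹).left (φ k x) = f x := by
      rw [← map_inv]
      simp [shift_apply]
    rcases hconj _ hkmem with h | h
    · rw [h] at hcl
      apply hx
      rw [← hcl]
      exact hy
    · rw [h] at hcl
      apply hx
      rw [← hcl]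
      simp [hy]
  · -- an element outside the base group moves a point
    have hmove : ∃ x, φ g x ≠ x := by
      by_contra hcon
      push Not at hcon
      apply hg1
      apply hφ
      rw [map_one]
      exact Equiv.ext hcon
    obtain ⟨x, hx⟩ := hmove
    have hxi : (φ g)⁻¹ x ≠ x := by
      intro h
      rw [Equiv.Perm.inv_eq_iff_eq] at h
      exact hx h.symm
    have hval : ∀ s : S, s ≠ 1 → s * f x = (⟨f, g⟩ : (X → S) ⋊[shift φ] G)⁻¹.left x := by
      intro s hs
      have hl : ((SemidirectProduct.inl (Pi.mulSingle x s) : (X → S) ⋊[shift φ] G) *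
      (⟨f, g⟩ : (X → S) ⋊[shift φ] G) *
          (SemidirectProduct.inl (Pi.mulSingle x s))⁻¹).left x = s * f x := by
        rw [conj_single_left, Pi.mulSingle_eq_same, Pi.mulSingle_eq_of_ne hxi]
        simp
      have hne : (SemidirectProduct.inl (Pi.mulSingle x s) : (X → S) ⋊[shift φ] G) *
          (⟨f, g⟩ : (X → S) ⋊[shift φ] G) *
          (SemidirectProduct.inl (Pi.mulSingle x s))⁻¹ ≠ ⟨f, g⟩ := by
        intro h
        rw [h] at hl
        apply hs
        simpa using hl.symm
      have heq := (hconj _ (hinl (Pi.mulSingle x s))).resolve_left hne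
      rw [← hl, heq]
    have h := (hval s₁ h₁).trans (hval s₂ h₂).symm
    exact h₁₂ (mul_right_cancel h)

end Wreath

section Cayley

variable {Γ : Type*} [Group Γ]

theorem cayley_core [Finite Γ] (hcard : 4 < Nat.card Γ) (H : Subgroup Γ) :
    (H.map (MulAction.toPermHom Γ Γ)).normalCore = ⊥ := by
  classical
  have := Fintype.ofFinite Γ
  rw [Nat.card_eq_fintype_card] at hcard
  rw [eq_bot_iff]
  intro h hh
  have hmem := Subgroup.normalCore_le _ hh
  obtain ⟨γ, -, hγ⟩ := hmem
  rw [Subgroup.mem_bot, ← hγ]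
  by_contra hne
  have hγ1 : γ ≠ 1 := by
    rintro rfl
    exact hne (map_one _)
  obtain ⟨δ, hδ⟩ : ∃ δ : Γ, δ ∉ ({1, γ} : Finset Γ) := by
    by_contra hcon
    push Not at hcon
    have h1 : Fintype.card Γ ≤ ({1, γ} : Finset Γ).card := by
      rw [← Finset.card_univ]
      exact Finset.card_le_card fun x _ => hcon x
    have h2 := Finset.card_le_two (a := (1 : Γ)) (b := γ)
    omega
  obtain ⟨ε, hε⟩ : ∃ ε : Γ, ε ∉ ({1, γ, δ, γ * δ} : Finset Γ) := by
    by_contra hcon
    push Not at hcon
    have h1 : Fintype.card Γ ≤ ({1, γ, δ, γ * δ} : Finset Γ).card := by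
      rw [← Finset.card_univ]
      exact Finset.card_le_card fun x _ => hcon x
    have h2 := Finset.card_le_four (a := (1 : Γ)) (b := γ) (c := δ) (d := γ * δ)
    omega
  simp only [Finset.mem_insert, Finset.mem_singleton, not_or] at hδ hε
  have hconj : (Equiv.swap δ ε) * h * (Equiv.swap δ ε)⁻¹ ∈ H.map (MulAction.toPermHom Γ Γ) := by
    have := (Subgroup.normalCore_normal (H.map (MulAction.toPermHom Γ Γ))).conj_mem h hh
      (Equiv.swap δ ε)
    exact Subgroup.normalCore_le _ this
  obtain ⟨γ', -, hγ'⟩ := hconj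
  have e1 : γ' = γ := by
    have h1 := congrArg (fun p : Equiv.Perm Γ => p 1) hγ'
    simp only [Equiv.Perm.mul_apply, Equiv.swap_inv] at h1
    rw [← hγ, Equiv.swap_apply_of_ne_of_ne (Ne.symm hδ.1) (Ne.symm hε.1)] at h1
    change γ' * 1 = Equiv.swap δ ε (γ * 1) at h1
    rw [mul_one, mul_one, Equiv.swap_apply_of_ne_of_ne (Ne.symm hδ.2) (Ne.symm hε.2.1)] at h1
    exact h1
  have h2 := congrArg (fun p : Equiv.Perm Γ => p ε) hγ'
  simp only [Equiv.Perm.mul_apply, Equiv.swap_inv] at h2
  rw [← hγ, Equiv.swap_apply_right, e1] at h2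
  change γ * ε = Equiv.swap δ ε (γ * δ) at h2
  have hne1 : γ * δ ≠ δ := by
    intro h3; apply hγ1; simpa using h3
  rw [Equiv.swap_apply_of_ne_of_ne hne1 (Ne.symm hε.2.2.2)] at h2
  exact hε.2.2.1 (mul_left_cancel h2)

end Cayley

end Pool.Agent.Lib.MP_997916_al
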